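import Pool.Agent.Cofactor.Plain

/-!
# The generic rank of complete bipartite graphs in the cofactor matroids

For every `s ≥ 1` and all `m`, `n` with `m + n ≥ s + 1` the `C_s^{s-1}`-cofactor matrix of `K_{m,n}`
has rank `min (m n) ((s + 1)(m + n) - C(s + 2, 2))` at every configuration whose coordinates are
algebraically independent over `ℚ`. So `K_{m,n}` is always independent or rigid, and for
`m, n ≥ 2` it is generically rigid if and only if `m n ≥ (s + 1)(m + n) - C(s + 2, 2)`.
-/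

set_option autoImplicit false

namespace Pool.Agent.Results.MP_88774e_co.BipartiteRank

open Pool.Agent.Cofactor

theorem result :
    (∀ s m n : ℕ, 1 ≤ s → s + 1 ≤ m + n → ∀ x y : Fin (m + n) → ℝ, Generic x y →
      ((cofactorMatrix s (Kmn m n) x y).rank : ℤ) =
        min ((m : ℤ) * (n : ℤ))
          (((s : ℤ) + 1) * ((m : ℤ) + (n : ℤ)) - (((s + 2).choose 2 : ℕ) : ℤ))) ∧
    (∀ s m n : ℕ, 1 ≤ s → 2 ≤ m → 2 ≤ n → s + 1 ≤ m + n →
      (GenericallyRigid s (Kmn m n) ↔
        ((s : ℤ) + 1) * ((m : ℤ) + (n : ℤ)) - (((s + 2).choose 2 : ℕ) : ℤ) ≤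
          (m : ℤ) * (n : ℤ))) :=
  ⟨fun s m n _ hmn x y h => generic_rank s m n hmn x y h,
    fun s m n _ _ _ hmn => rigid_iff s m n hmn⟩

end Pool.Agent.Results.MP_88774e_co.BipartiteRank
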